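import Pool.Agent.H17.RX.Gen

/-!
# A class of ultrafilters for which the algebra is not reflexive (real scalars, no axiom)

Let `U` be a nonprincipal ultrafilter on `ℕ` which has a *complex generic sequence*: unit vectors
`z i`, `y i = J (z i)` of real `ℓ²`, `J (y i) = - z i`, orthogonal to each other, such that
`⟪z, T z⟫ - ⟪y, T y⟫ → 0` along `U` for every bounded `T`, and such that for every bounded sequence `v`
the sequence `⟪z, v⟫ z + ⟪y, v⟫ y` is, along `U`, a limit of sequences `T v`. Then for real scalars and
every `1 < p < ∞` the algebra `A_{p,U}` is not reflexive. (Such ultrafilters exist under CH: theorem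
`Pool.Agent.H17.RX.exists_generic`.)
-/

set_option autoImplicit false

open Filter MeasureTheory
open scoped ENNReal

namespace Pool.Agent.Results.MP_a60174_an.ComplexGeneric

open Pool.Agent.H17.RX

theorem result (U : Ultrafilter ℕ) (_hU : (U : Filter ℕ) ≤ cofinite) (h : ComplexGeneric U)
    (p : ℝ≥0∞) [Fact (1 ≤ p)] (hp1 : 1 < p) (hp : p ≠ ⊤) : ¬ IsRefl (algU (LpI p) U) :=
  h.not_refl p hp1 hp

end Pool.Agent.Results.MP_a60174_an.ComplexGeneric
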