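import Pool.Agent.H17.RX.Main

/-!
# Under CH the weak closure of the ultrapower operators on real `L^p[0,1]` is not always reflexive

Assume the continuum hypothesis. There is a nonprincipal ultrafilter `U` on `ℕ` such that, for
REAL scalars and for every `1 < p < ∞`, the closure `A_{p,U}` in the weak operator topology of the
ultrapowers `T^U` of the bounded operators `T` on `L^p[0,1]` is not a reflexive operator algebra.

Parts of the proof were written by helpers 2, 6, 7, 17, 18, 40, 61, 80, 83, 85, 88, 89, 98.
-/

set_option autoImplicit false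

open Filter MeasureTheory
open scoped ENNReal

namespace Pool.Agent.Results.MP_a60174_an.NotReflexiveUnderCH

open Pool.Agent.H17.RX

theorem result (hCH : Cardinal.continuum.{0} = Cardinal.aleph 1) :
    ∃ U : Ultrafilter ℕ, (U : Filter ℕ) ≤ cofinite ∧
      ∀ (p : ℝ≥0∞) [Fact (1 ≤ p)], 1 < p → p ≠ ⊤ → ¬ IsRefl (algU (LpI p) U) :=
  main hCH

end Pool.Agent.Results.MP_a60174_an.NotReflexiveUnderCH
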